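import Pool.Agent.Helper93.T53.StD

/-!
# Project T53, module LEO: solutions of the relations with given leading forms, odd degree
-/

set_option autoImplicit false

namespace Pool.Agent.Helper41.T53

open Pool.Agent.Helper14.CV (Homog EqC act Tl StFar StFex)
open Pool.Agent.Helper28.WK (Tw evw)
open Pool.Agent.Helper78.W3 (tr Fn3 Tm opL op3 mulL negL Wd3 dX dY oD oN Lw sS M5 bb3 S3PlA S3Trm S3Low0 S3Nf S3Exp S3Lw1 S3Bb)
open Pool.Agent.Helper28.T5 (HTy SymH)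
open Pool.Agent.Helper83.T5C (SHHk SHHkS LBH)
open Pool.Agent.Helper93.TLE (DDE)
open Pool.Agent.Helper93.T53

private theorem qT_eq {q q' : ℕ} (f : Fin 5 → Fn3 q q') (b : Fin 4 → Fn3 q q') : qT f b =
    (op3 1 1 0 1 (f 0) - f 0) + (f 1 - op3 5 1 5 10 (f 1)) +
    (f 2 - op3 65 12 15 25 (f 2)) + (f 3 - op3 70 (-13) 15 (-25) (f 3)) +
    (f 4 - op3 10 1 5 5 (f 4)) + (b 0 - op3 20 3 (-15) (-20) (b 0)) +
    (b 1 - op3 20 (-3) 15 (-20) (b 1)) + (b 2 - op3 20 (-9) 5 (-20) (b 2)) +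
    (b 3 - op3 25 (-14) 5 (-25) (b 3)) := rfl

private theorem three0 : (3 : ZMod 3) = 0 := by decide

private theorem three {M : Type*} [AddCommGroup M] [Module (ZMod 3) M] (x : M) :
    (3 : ZMod 3) • x = 0 := by rw [three0, zero_smul]

theorem hLeo (_ht : S3Trm) (hl : S3Low0) (h1 : S3Lw1) (hw : TLwt) (hb : S3Bb)
    (hs : TSol) (hu : TSur) : TLeo := by
  intro r s al be u hal hbe hod c1 c2 c3
  obtain ⟨-, -, -, -, wmono, -, ldx, ldy, -⟩ := hl r s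
  obtain ⟨b1, -⟩ := hb r s
  obtain ⟨-, -, -, -, lN, -⟩ := h1 r s
  obtain ⟨hNN, -, -, we, wo, wA, wM1, wM2, wM3, wM4, wS1, wS2, wS3, wS4⟩ := hw r s
  have hal' : (al : ℤ) < 3 ^ r := by exact_mod_cast hal
  have hbe' : (be : ℤ) < 3 ^ s := by exact_mod_cast hbe
  obtain ⟨d, hd⟩ : ∃ d : ℤ, d = (al : ℤ) + be := ⟨_, rfl⟩
  have hdo : Odd d := by
    obtain ⟨m, hm⟩ := hod
    exact ⟨(m : ℤ), by rw [hd]; exact_mod_cast hm⟩
  have hodd : Odd (d - 2) := hdo.sub_even even_two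
  have m12 : ∀ {F : Fn3 (3 ^ r) (3 ^ s)} {k : ℤ}, F ∈ Wd3 (k - 1 - 1) → F ∈ Wd3 (k - 2) := by
    intro F k hF
    exact wmono _ _ (by linarith : k - 1 - 1 ≤ k - 2) hF
  obtain ⟨P, hP⟩ : ∃ P : Fn3 (3 ^ r) (3 ^ s), P = bb3 al be := ⟨_, rfl⟩
  have hPW : P ∈ Wd3 d := by
    rw [hP, hd]
    exact b1 al be hal hbe
  have hNP : oN P + P ∈ Wd3 (d - 1) := wo d P hPW hdo
  obtain ⟨w, hwd⟩ : ∃ w : Fn3 (3 ^ r) (3 ^ s), w = oN P - P := ⟨_, rfl⟩
  have hwP : w - P ∈ Wd3 (d - 1) := by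
    have e : w - P = (oN P + P) - (3 : ZMod 3) • P := by
      rw [hwd]
      module
    rw [e, three, sub_zero]
    exact hNP
  have hwW : w ∈ Wd3 d := by
    have e : w = (w - P) + P := by abel
    rw [e]
    exact Submodule.add_mem _ (wmono _ _ (by linarith : d - 1 ≤ d) hwP) hPW
  have hNw : oN w = -w := by
    have e : oN (oN P) = P := by
      have h := LinearMap.congr_fun hNN P
      rwa [Module.End.mul_apply, Module.End.one_apply] at h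
    rw [hwd, map_sub, e]
    abel
  -- operators of the form `oN * (1 + β dX + γ dY)`
  have key : ∀ (O : Module.End (ZMod 3) (Fn3 (3 ^ r) (3 ^ s))) (β γ : ZMod 3),
      Lw (O - oN * (1 + β • dX + γ • dY)) 2 →
      (∀ (k : ℤ) (F : Fn3 (3 ^ r) (3 ^ s)), F ∈ Wd3 k → O F ∈ Wd3 k) ∧
        O w + w - β • dX w - γ • dY w ∈ Wd3 (d - 2) := by
    intro O β γ hO
    obtain ⟨L, hLd⟩ : ∃ L : Module.End (ZMod 3) (Fn3 (3 ^ r) (3 ^ s)), L = 1 + β • dX + γ • dY :=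
      ⟨_, rfl⟩
    have eL : ∀ F : Fn3 (3 ^ r) (3 ^ s), L F - F = β • dX F + γ • dY F := by
      intro F
      rw [hLd]
      simp only [LinearMap.add_apply, LinearMap.smul_apply, Module.End.one_apply]
      abel
    have hL : ∀ (k : ℤ) (F : Fn3 (3 ^ r) (3 ^ s)), F ∈ Wd3 k → L F - F ∈ Wd3 (k - 1) := by
      intro k F hF
      rw [eL]
      exact Submodule.add_mem _ (Submodule.smul_mem _ _ (ldx k F hF))
        (Submodule.smul_mem _ _ (ldy k F hF))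
    rw [← hLd] at hO
    have e : ∀ F : Fn3 (3 ^ r) (3 ^ s), O F =
        (O - oN * L : Module.End (ZMod 3) (Fn3 (3 ^ r) (3 ^ s))) F + oN F + oN (L F - F) := by
      intro F
      simp only [LinearMap.sub_apply, Module.End.mul_apply, map_sub]
      abel
    have g0 : ∀ (k : ℤ) (F : Fn3 (3 ^ r) (3 ^ s)), F ∈ Wd3 k →
        (O - oN * L : Module.End (ZMod 3) (Fn3 (3 ^ r) (3 ^ s))) F ∈ Wd3 (k - 2) :=
      fun k F hF => hO k F hF
    have g2 : ∀ (k : ℤ) (F : Fn3 (3 ^ r) (3 ^ s)), F ∈ Wd3 k → oN (L F - F) ∈ Wd3 (k - 1) := by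
      intro k F hF
      have h := lN _ _ (hL k F hF)
      rwa [sub_zero] at h
    have g3 : ∀ (k : ℤ) (F : Fn3 (3 ^ r) (3 ^ s)), F ∈ Wd3 k → oN F ∈ Wd3 k := by
      intro k F hF
      have h := lN _ _ hF
      rwa [sub_zero] at h
    refine ⟨fun k F hF => ?_, ?_⟩
    · rw [e]
      exact Submodule.add_mem _ (Submodule.add_mem _
        (wmono _ _ (by linarith : k - 2 ≤ k) (g0 k F hF)) (g3 k F hF))
        (wmono _ _ (by linarith : k - 1 ≤ k) (g2 k F hF))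
    · have e' : O w + w - β • dX w - γ • dY w =
          (O - oN * L : Module.End (ZMod 3) (Fn3 (3 ^ r) (3 ^ s))) w +
            (oN (L w - w) - (L w - w)) := by
        rw [e w, hNw, eL w]
        abel
      rw [e']
      exact Submodule.add_mem _ (g0 d w hwW)
        (m12 (we (d - 1) _ (hL d w hwW) (hdo.sub_odd odd_one)))
  -- the operators
  obtain ⟨A, hA⟩ : ∃ A : Module.End (ZMod 3) (Fn3 (3 ^ r) (3 ^ s)), A = op3 1 1 0 1 :=
    ⟨_, rfl⟩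
  obtain ⟨M1, hM1⟩ : ∃ M : Module.End (ZMod 3) (Fn3 (3 ^ r) (3 ^ s)), M = op3 5 1 5 10 :=
    ⟨_, rfl⟩
  obtain ⟨M2, hM2⟩ : ∃ M : Module.End (ZMod 3) (Fn3 (3 ^ r) (3 ^ s)), M = op3 65 12 15 25 :=
    ⟨_, rfl⟩
  obtain ⟨M3, hM3⟩ : ∃ M : Module.End (ZMod 3) (Fn3 (3 ^ r) (3 ^ s)), M = op3 70 (-13) 15 (-25) :=
    ⟨_, rfl⟩
  obtain ⟨M4, hM4⟩ : ∃ M : Module.End (ZMod 3) (Fn3 (3 ^ r) (3 ^ s)), M = op3 10 1 5 5 :=
    ⟨_, rfl⟩
  obtain ⟨S1, hS1⟩ : ∃ M : Module.End (ZMod 3) (Fn3 (3 ^ r) (3 ^ s)), M = op3 20 3 (-15) (-20) :=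
    ⟨_, rfl⟩
  obtain ⟨S2, hS2⟩ : ∃ M : Module.End (ZMod 3) (Fn3 (3 ^ r) (3 ^ s)), M = op3 20 (-3) 15 (-20) :=
    ⟨_, rfl⟩
  obtain ⟨S3, hS3⟩ : ∃ M : Module.End (ZMod 3) (Fn3 (3 ^ r) (3 ^ s)), M = op3 20 (-9) 5 (-20) :=
    ⟨_, rfl⟩
  obtain ⟨S4, hS4⟩ : ∃ M : Module.End (ZMod 3) (Fn3 (3 ^ r) (3 ^ s)), M = op3 25 (-14) 5 (-25) :=
    ⟨_, rfl⟩
  rw [← hA] at wA
  rw [← hM1] at wM1
  rw [← hM2] at wM2
  rw [← hM3] at wM3
  rw [← hM4] at wM4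
  rw [← hS1] at wS1
  rw [← hS2] at wS2
  rw [← hS3] at wS3
  rw [← hS4] at wS4
  obtain ⟨X, hX⟩ : ∃ X : Module.End (ZMod 3) (Fn3 (3 ^ r) (3 ^ s)), X = dX := ⟨_, rfl⟩
  obtain ⟨Y, hY⟩ : ∃ Y : Module.End (ZMod 3) (Fn3 (3 ^ r) (3 ^ s)), Y = dY := ⟨_, rfl⟩
  have mX : X w ∈ Wd3 (d - 1) := by
    rw [hX]
    exact ldx d w hwW
  have mY : Y w ∈ Wd3 (d - 1) := by
    rw [hY]
    exact ldy d w hwW
  rw [← hX, ← hY] at key
  rw [← hX] at wA wM1 wM3 wM4 wS4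
  rw [← hY] at wM1 wM4 wS3 wS4
  have e0 : (oN : Module.End (ZMod 3) (Fn3 (3 ^ r) (3 ^ s))) =
      oN * (1 + (0 : ZMod 3) • X + (0 : ZMod 3) • Y) := by
    rw [zero_smul, zero_smul, add_zero, add_zero, mul_one]
  have tA : A w - w - X w ∈ Wd3 (d - 2) := by
    have h := wA d w hwW
    simpa only [LinearMap.sub_apply, Module.End.one_apply] using h
  obtain ⟨-, t1⟩ := key M1 (-1) (-1) (by
    have e : (1 + (-1 : ZMod 3) • X + (-1 : ZMod 3) • Y) = 1 - X - Y := by module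
    rw [e]
    exact wM1)
  obtain ⟨-, t2⟩ := key M2 0 0 (by
    rw [← e0]
    exact wM2)
  obtain ⟨-, t3⟩ := key M3 (-1) 0 (by
    have e : (1 + (-1 : ZMod 3) • X + (0 : ZMod 3) • Y) = 1 - X := by module
    rw [e]
    exact wM3)
  obtain ⟨-, t4⟩ := key M4 1 1 (by
    have e : (1 + (1 : ZMod 3) • X + (1 : ZMod 3) • Y) = 1 + X + Y := by module
    rw [e]
    exact wM4)
  obtain ⟨kS1, s1⟩ := key S1 0 0 (by
    rw [← e0]
    exact wS1)
  obtain ⟨kS2, s2⟩ := key S2 0 0 (by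
    rw [← e0]
    exact wS2)
  obtain ⟨kS3, s3⟩ := key S3 0 (-1) (by
    have e : (1 + (0 : ZMod 3) • X + (-1 : ZMod 3) • Y) = 1 - Y := by module
    rw [e]
    exact wS3)
  obtain ⟨kS4, s4⟩ := key S4 1 1 (by
    have e : (1 + (1 : ZMod 3) • X + (1 : ZMod 3) • Y) = 1 + X + Y := by module
    rw [e]
    exact wS4)
  -- the first approximation and its defect
  obtain ⟨f, hf⟩ : ∃ f : Fin 5 → Fn3 (3 ^ r) (3 ^ s),
      f = ![u 0 • w, u 1 • w, u 2 • w, u 3 • w, u 4 • w] := ⟨_, rfl⟩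
  obtain ⟨b, hbb⟩ : ∃ b : Fin 4 → Fn3 (3 ^ r) (3 ^ s),
      b = ![-(u 5 • w), -(u 6 • w), -(u 7 • w), -(u 8 • w)] := ⟨_, rfl⟩
  have f0 : f 0 = u 0 • w := by rw [hf]; rfl
  have f1 : f 1 = u 1 • w := by rw [hf]; rfl
  have f2 : f 2 = u 2 • w := by rw [hf]; rfl
  have f3 : f 3 = u 3 • w := by rw [hf]; rfl
  have f4 : f 4 = u 4 • w := by rw [hf]; rfl
  have b0 : b 0 = -(u 5 • w) := by rw [hbb]; rfl
  have b1' : b 1 = -(u 6 • w) := by rw [hbb]; rfl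
  have b2 : b 2 = -(u 7 • w) := by rw [hbb]; rfl
  have b3 : b 3 = -(u 8 • w) := by rw [hbb]; rfl
  have hEW : qT f b ∈ Wd3 (d - 2) := by
    have e : qT f b = u 0 • (A w - w - X w) - u 1 • (M1 w + w - (-1 : ZMod 3) • X w - (-1 : ZMod 3) • Y w) -
        u 2 • (M2 w + w - (0 : ZMod 3) • X w - (0 : ZMod 3) • Y w) -
        u 3 • (M3 w + w - (-1 : ZMod 3) • X w - (0 : ZMod 3) • Y w) -
        u 4 • (M4 w + w - (1 : ZMod 3) • X w - (1 : ZMod 3) • Y w) +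
        u 5 • (S1 w + w - (0 : ZMod 3) • X w - (0 : ZMod 3) • Y w) +
        u 6 • (S2 w + w - (0 : ZMod 3) • X w - (0 : ZMod 3) • Y w) +
        u 7 • (S3 w + w - (0 : ZMod 3) • X w - (-1 : ZMod 3) • Y w) +
        u 8 • (S4 w + w - (1 : ZMod 3) • X w - (1 : ZMod 3) • Y w) +
        (2 * (u 1 + u 2 + u 3 + u 4 - (u 5 + u 6 + u 7 + u 8))) • w +
        (u 0 + u 1 + u 3 - u 4 + u 8) • X w + (u 1 - u 4 - u 7 + u 8) • Y w := by
      rw [qT_eq, f0, f1, f2, f3, f4, b0, b1', b2, b3, ← hA, ← hM1, ← hM2, ← hM3, ← hM4, ← hS1, ← hS2,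
        ← hS3, ← hS4]
      simp only [map_neg, map_smul]
      module
    have n1 : (2 * (u 1 + u 2 + u 3 + u 4 - (u 5 + u 6 + u 7 + u 8))) • w = 0 := by
      rw [c1, sub_self, mul_zero, zero_smul]
    have n2 : (u 0 + u 1 + u 3 - u 4 + u 8) • X w = 0 := by rw [c2, zero_smul]
    have n3 : (u 1 - u 4 - u 7 + u 8) • Y w = 0 := by rw [c3, zero_smul]
    rw [e, n1, n2, n3, add_zero, add_zero, add_zero]
    exact Submodule.add_mem _ (Submodule.add_mem _ (Submodule.add_mem _ (Submodule.add_mem _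
      (Submodule.sub_mem _ (Submodule.sub_mem _ (Submodule.sub_mem _ (Submodule.sub_mem _
      (Submodule.smul_mem _ _ tA) (Submodule.smul_mem _ _ t1)) (Submodule.smul_mem _ _ t2))
      (Submodule.smul_mem _ _ t3)) (Submodule.smul_mem _ _ t4)) (Submodule.smul_mem _ _ s1))
      (Submodule.smul_mem _ _ s2)) (Submodule.smul_mem _ _ s3)) (Submodule.smul_mem _ _ s4)
  obtain ⟨f', b', -, -, hfb, hq⟩ := hu r s (d - 2) (qT f b) (by linarith) hEW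
  obtain ⟨hf', hb'⟩ := hfb hodd
  have hz : qT (fun i => f i - f' i) (fun i => b i - b' i) = (0 : Fn3 (3 ^ r) (3 ^ s)) := by
    have e : qT (fun i => f i - f' i) (fun i => b i - b' i) = qT f b - qT f' b' := by
      rw [qT_eq, qT_eq, qT_eq]
      simp only [map_sub]
      abel
    rw [e, hq, sub_self]
  have hm : ∀ {F : Fn3 (3 ^ r) (3 ^ s)}, F ∈ Wd3 (d - 2) → F ∈ Wd3 d :=
    fun hF => wmono _ _ (by linarith : d - 2 ≤ d) hF
  have hm1 : ∀ {F : Fn3 (3 ^ r) (3 ^ s)}, F ∈ Wd3 (d - 2) → F ∈ Wd3 (d - 1) :=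
    fun hF => wmono _ _ (by linarith : d - 2 ≤ d - 1) hF
  -- memberships
  have P1 : ∀ (v : ZMod 3) (g : Fn3 (3 ^ r) (3 ^ s)), g ∈ Wd3 (d - 2) →
      v • w - g ∈ Wd3 d ∧ v • w - g - v • P ∈ Wd3 (d - 1) := by
    intro v g hg
    refine ⟨Submodule.sub_mem _ (Submodule.smul_mem _ _ hwW) (hm hg), ?_⟩
    have e : v • w - g - v • P = v • (w - P) - g := by module
    rw [e]
    exact Submodule.sub_mem _ (Submodule.smul_mem _ _ hwP) (hm1 hg)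
  have P2 : ∀ (S : Module.End (ZMod 3) (Fn3 (3 ^ r) (3 ^ s))) (β γ v : ZMod 3)
      (g : Fn3 (3 ^ r) (3 ^ s)),
      (∀ (k : ℤ) (F : Fn3 (3 ^ r) (3 ^ s)), F ∈ Wd3 k → S F ∈ Wd3 k) →
      S w + w - β • X w - γ • Y w ∈ Wd3 (d - 2) → g ∈ Wd3 (d - 2) →
      (-(v • w) - g) - S (-(v • w) - g) ∈ Wd3 d ∧
        (-(v • w) - g) - S (-(v • w) - g) - v • P ∈ Wd3 (d - 1) := by
    intro S β γ v g hS hSw hg
    have m0 : -(v • w) - g ∈ Wd3 d :=
      Submodule.sub_mem _ (Submodule.neg_mem _ (Submodule.smul_mem _ _ hwW)) (hm hg)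
    refine ⟨Submodule.sub_mem _ m0 (hS d _ m0), ?_⟩
    have e : (-(v • w) - g) - S (-(v • w) - g) - v • P = v • (S w + w - β • X w - γ • Y w) +
        (v * β) • X w + (v * γ) • Y w + v • (w - P) - v • ((3 : ZMod 3) • w) - g + S g := by
      rw [map_sub, map_neg, map_smul]
      module
    rw [e, three, smul_zero, sub_zero]
    exact Submodule.add_mem _ (Submodule.sub_mem _ (Submodule.add_mem _ (Submodule.add_mem _
      (Submodule.add_mem _ (Submodule.smul_mem _ _ (hm1 hSw)) (Submodule.smul_mem _ _ mX))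
      (Submodule.smul_mem _ _ mY)) (Submodule.smul_mem _ _ hwP)) (hm1 hg)) (hm1 (hS _ _ hg))
  have q0 := P1 (u 0) _ (hf' 0)
  have q1 := P1 (u 1) _ (hf' 1)
  have q2 := P1 (u 2) _ (hf' 2)
  have q3 := P1 (u 3) _ (hf' 3)
  have q4 := P1 (u 4) _ (hf' 4)
  have q5 := P2 S1 0 0 (u 5) _ kS1 s1 (hb' 0)
  have q6 := P2 S2 0 0 (u 6) _ kS2 s2 (hb' 1)
  have q7 := P2 S3 0 (-1) (u 7) _ kS3 s3 (hb' 2)
  have q8 := P2 S4 1 1 (u 8) _ kS4 s4 (hb' 3)
  rw [← f0] at q0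
  rw [← f1] at q1
  rw [← f2] at q2
  rw [← f3] at q3
  rw [← f4] at q4
  rw [← b0, hS1] at q5
  rw [← b1', hS2] at q6
  rw [← b2, hS3] at q7
  rw [← b3, hS4] at q8
  refine ⟨solT (fun i => f i - f' i) (fun i => b i - b' i),
    hs (ZMod 3) _ r s _ _ fun x y => congrFun (congrFun hz x) y, ?_, ?_⟩
  · rw [← hd]
    intro i
    fin_cases i
    · exact q0.1
    · exact q1.1
    · exact q2.1
    · exact q3.1
    · exact q4.1
    · exact q5.1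
    · exact q6.1
    · exact q7.1
    · exact q8.1
  · rw [← hd, ← hP]
    intro i
    fin_cases i
    · exact q0.2
    · exact q1.2
    · exact q2.2
    · exact q3.2
    · exact q4.2
    · exact q5.2
    · exact q6.2
    · exact q7.2
    · exact q8.2

end Pool.Agent.Helper41.T53
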